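import Pool.Agent.Helper20.QD.St6

/-!
# Project QD, part B, module DPO (Douady-Earle positivity)
-/

open Filter Topology Matrix Set Metric
open scoped ComplexConjugate

namespace Pool.Agent.Helper76.QD

open Pool.Agent.Helper35.PM Pool.Agent.Helper20.QD

private theorem re_int {g : ℝ → ℂ} (hg : Continuous g) (a b : ℝ) :
    (∫ t in a..b, g t).re = ∫ t in a..b, (g t).re :=
  (Complex.reCLM.intervalIntegral_comp_comm (hg.intervalIntegrable a b)).symm

private theorem im_int {g : ℝ → ℂ} (hg : Continuous g) (a b : ℝ) :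
    (∫ t in a..b, g t).im = ∫ t in a..b, (g t).im :=
  (Complex.imCLM.intervalIntegral_comp_comm (hg.intervalIntegrable a b)).symm

private theorem cont_param {g : ℝ → ℝ → ℝ} (hg : Continuous (Function.uncurry g)) (a b : ℝ) :
    Continuous fun t => ∫ u in a..b, g t u :=
  intervalIntegral.continuous_parametric_intervalIntegral_of_continuous' (f := g) hg a b

private theorem cont_slice {g : ℝ → ℝ → ℝ} (hg : Continuous (Function.uncurry g)) (t : ℝ) :
    Continuous (g t) := by
  have h : Continuous fun u : ℝ => ((t, u) : ℝ × ℝ) := continuous_const.prodMk continuous_id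
  exact hg.comp h

private theorem PI_zero (u : ℂ → ℂ) : PI u 0 =
    ((2 * Real.pi : ℝ) : ℂ)⁻¹ * ∫ t in (0 : ℝ)..(2 * Real.pi), u (Complex.exp (t * Complex.I)) := by
  unfold PI
  congr 1
  apply intervalIntegral.integral_congr
  intro t _
  have h : PK 0 (Complex.exp (t * Complex.I)) = 1 := by
    unfold PK
    rw [norm_zero, sub_zero, Complex.norm_exp_ofReal_mul_I]
    norm_num
  show (PK 0 (Complex.exp (t * Complex.I)) : ℂ) * u (Complex.exp (t * Complex.I)) = _
  rw [h, Complex.ofReal_one, one_mul]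

private theorem norm_PI_zero (u : ℂ → ℂ) : ‖PI u 0‖ =
    (2 * Real.pi)⁻¹ * ‖∫ t in (0 : ℝ)..(2 * Real.pi), u (Complex.exp (t * Complex.I))‖ := by
  rw [PI_zero, norm_mul, norm_inv, Complex.norm_real, Real.norm_eq_abs,
    abs_of_pos Real.two_pi_pos]

private theorem sq_int {c s : ℝ → ℝ} (hc : Continuous c) (hs : Continuous s)
    (hcp : Function.Periodic c (2 * Real.pi)) (hsp : Function.Periodic s (2 * Real.pi)) :
    (∫ t in (0 : ℝ)..(2 * Real.pi), c t) ^ 2 + (∫ t in (0 : ℝ)..(2 * Real.pi), s t) ^ 2 =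
      ∫ t in (0 : ℝ)..(2 * Real.pi), ∫ u in (0 : ℝ)..(2 * Real.pi),
        (c t * c (t + u) + s t * s (t + u)) := by
  have key : ∀ f : ℝ → ℝ, Function.Periodic f (2 * Real.pi) → ∀ t : ℝ,
      ∫ u in (0 : ℝ)..(2 * Real.pi), f (t + u) = ∫ u in (0 : ℝ)..(2 * Real.pi), f u := by
    intro f hf t
    rw [intervalIntegral.integral_comp_add_left, add_zero, hf.intervalIntegral_add_eq t 0, zero_add]
  have inner : ∀ t : ℝ, ∫ u in (0 : ℝ)..(2 * Real.pi), (c t * c (t + u) + s t * s (t + u)) =
      c t * (∫ u in (0 : ℝ)..(2 * Real.pi), c u) + s t * ∫ u in (0 : ℝ)..(2 * Real.pi), s u := by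
    intro t
    have h1 : Continuous fun u => c t * c (t + u) :=
      continuous_const.mul (hc.comp (continuous_const.add continuous_id))
    have h2 : Continuous fun u => s t * s (t + u) :=
      continuous_const.mul (hs.comp (continuous_const.add continuous_id))
    rw [intervalIntegral.integral_add (h1.intervalIntegrable _ _) (h2.intervalIntegrable _ _),
      intervalIntegral.integral_const_mul, intervalIntegral.integral_const_mul, key c hcp,
      key s hsp]
  simp only [inner]
  have h1 : Continuous fun t => c t * ∫ u in (0 : ℝ)..(2 * Real.pi), c u := hc.mul continuous_const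
  have h2 : Continuous fun t => s t * ∫ u in (0 : ℝ)..(2 * Real.pi), s u := hs.mul continuous_const
  rw [intervalIntegral.integral_add (h1.intervalIntegrable _ _) (h2.intervalIntegrable _ _),
    intervalIntegral.integral_mul_const, intervalIntegral.integral_mul_const]
  ring

private theorem sq_exp {f : ℝ → ℝ} (hf : Continuous f)
    (hfp : ∀ t, ∃ k : ℤ, f (t + 2 * Real.pi) = f t + k * (2 * Real.pi)) :
    ‖∫ t in (0 : ℝ)..(2 * Real.pi), Complex.exp (f t * Complex.I)‖ ^ 2 =
      ∫ t in (0 : ℝ)..(2 * Real.pi), ∫ u in (0 : ℝ)..(2 * Real.pi),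
        Real.cos (f (t + u) - f t) := by
  have hg : Continuous fun t : ℝ => Complex.exp (f t * Complex.I) :=
    Complex.continuous_exp.comp ((Complex.continuous_ofReal.comp hf).mul continuous_const)
  have h1 : ‖∫ t in (0 : ℝ)..(2 * Real.pi), Complex.exp (f t * Complex.I)‖ ^ 2 =
      (∫ t in (0 : ℝ)..(2 * Real.pi), Real.cos (f t)) ^ 2 +
        (∫ t in (0 : ℝ)..(2 * Real.pi), Real.sin (f t)) ^ 2 := by
    rw [← Complex.normSq_eq_norm_sq, Complex.normSq_apply, re_int hg, im_int hg]
    simp only [Complex.exp_ofReal_mul_I_re, Complex.exp_ofReal_mul_I_im]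
    ring
  rw [h1, sq_int (c := fun t => Real.cos (f t)) (s := fun t => Real.sin (f t))
    (Real.continuous_cos.comp hf) (Real.continuous_sin.comp hf)]
  · apply intervalIntegral.integral_congr
    intro t _
    apply intervalIntegral.integral_congr
    intro u _
    show Real.cos (f t) * Real.cos (f (t + u)) + Real.sin (f t) * Real.sin (f (t + u)) =
      Real.cos (f (t + u) - f t)
    rw [Real.cos_sub]; ring
  · intro t
    obtain ⟨k, hk⟩ := hfp t
    show Real.cos (f (t + 2 * Real.pi)) = Real.cos (f t)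
    rw [hk, Real.cos_add_int_mul_two_pi]
  · intro t
    obtain ⟨k, hk⟩ := hfp t
    show Real.sin (f (t + 2 * Real.pi)) = Real.sin (f t)
    rw [hk, Real.sin_add_int_mul_two_pi]

private theorem trig (α β γ : ℝ) : Real.sin (2 * α) + Real.sin (2 * β) + Real.sin (2 * γ) -
    Real.sin (2 * (α + β + γ)) =
      4 * Real.sin (α + β) * Real.sin (β + γ) * Real.sin (α + γ) := by
  have h1 : Real.sin (2 * α) + Real.sin (2 * β) = 2 * Real.sin (α + β) * Real.cos (α - β) := by
    rw [show 2 * α = (α + β) + (α - β) by ring, show 2 * β = (α + β) - (α - β) by ring,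
      Real.sin_add (α + β), Real.sin_sub (α + β)]
    ring
  have h2 : Real.sin (2 * γ) - Real.sin (2 * (α + β + γ)) =
      - (2 * Real.sin (α + β) * Real.cos (α + β + 2 * γ)) := by
    rw [show 2 * γ = (α + β + 2 * γ) - (α + β) by ring,
      show 2 * (α + β + γ) = (α + β + 2 * γ) + (α + β) by ring,
      Real.sin_add (α + β + 2 * γ), Real.sin_sub (α + β + 2 * γ)]
    rw [show (α + β + 2 * γ) - (α + β) = 2 * γ by ring]
    ring
  have h3 : Real.cos (α - β) - Real.cos (α + β + 2 * γ) =
      2 * Real.sin (β + γ) * Real.sin (α + γ) := by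
    rw [show α - β = (α + γ) - (β + γ) by ring, show α + β + 2 * γ = (α + γ) + (β + γ) by ring,
      Real.cos_add (α + γ), Real.cos_sub (α + γ)]
    ring
  calc _ = 2 * Real.sin (α + β) * (Real.cos (α - β) - Real.cos (α + β + 2 * γ)) := by
        linear_combination h1 + h2
    _ = _ := by rw [h3]; ring

private theorem trig_pos {p1 p2 p3 p4 : ℝ} (h12 : p1 < p2) (h23 : p2 < p3) (h34 : p3 < p4)
    (h41 : p4 < p1 + 2 * Real.pi) :
    0 < Real.sin (p2 - p1) - Real.sin (p4 - p1) + Real.sin (p4 - p3) -
      Real.sin (p2 + 2 * Real.pi - p3) := by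
  have h := trig ((p2 - p1) / 2) ((p3 - p2) / 2) ((p4 - p3) / 2)
  rw [show 2 * ((p2 - p1) / 2) = p2 - p1 by ring, show 2 * ((p3 - p2) / 2) = p3 - p2 by ring,
    show 2 * ((p4 - p3) / 2) = p4 - p3 by ring,
    show 2 * ((p2 - p1) / 2 + (p3 - p2) / 2 + (p4 - p3) / 2) = p4 - p1 by ring] at h
  have e : Real.sin (p2 + 2 * Real.pi - p3) = - Real.sin (p3 - p2) := by
    rw [show p2 + 2 * Real.pi - p3 = (p2 - p3) + 2 * Real.pi by ring, Real.sin_add_two_pi,
      ← Real.sin_neg, neg_sub]
  rw [e]
  have h5 : 0 < Real.sin ((p2 - p1) / 2 + (p3 - p2) / 2) :=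
    Real.sin_pos_of_pos_of_lt_pi (by linarith) (by linarith)
  have h6 : 0 < Real.sin ((p3 - p2) / 2 + (p4 - p3) / 2) :=
    Real.sin_pos_of_pos_of_lt_pi (by linarith) (by linarith)
  have h7 : 0 < Real.sin ((p2 - p1) / 2 + (p4 - p3) / 2) :=
    Real.sin_pos_of_pos_of_lt_pi (by linarith) (by linarith)
  have h8 := mul_pos (mul_pos (mul_pos (by norm_num : (0 : ℝ) < 4) h5) h6) h7
  linarith

private theorem K_pos {Φ : ℝ → ℝ} (hc : Continuous Φ) (hm : StrictMono Φ)
    (hp : ∀ s, Φ (s + 2 * Real.pi) = Φ s + 2 * Real.pi) :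
    0 < ∫ t in (0 : ℝ)..(2 * Real.pi), ∫ u in (0 : ℝ)..(2 * Real.pi),
      Real.sin (Φ (t + u) - Φ t) * Real.sin u := by
  have hpi := Real.pi_pos
  let g : ℝ → ℝ → ℝ := fun t u => Real.sin (Φ (t + u) - Φ t) * Real.sin u
  have hg : Continuous (Function.uncurry g) := by
    apply Continuous.mul
    · exact Real.continuous_sin.comp
        ((hc.comp (continuous_fst.add continuous_snd)).sub (hc.comp continuous_fst))
    · exact Real.continuous_sin.comp continuous_snd
  let K : ℝ → ℝ := fun t => ∫ u in (0 : ℝ)..(2 * Real.pi), g t u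
  have hK : Continuous K := cont_param hg 0 (2 * Real.pi)
  have hgt : ∀ t, Continuous (g t) := fun t => cont_slice hg t
  have hKp : Function.Periodic K (2 * Real.pi) := by
    intro t
    show (∫ u in (0 : ℝ)..(2 * Real.pi), g (t + 2 * Real.pi) u) =
      ∫ u in (0 : ℝ)..(2 * Real.pi), g t u
    apply intervalIntegral.integral_congr
    intro u _
    show Real.sin (Φ (t + 2 * Real.pi + u) - Φ (t + 2 * Real.pi)) * Real.sin u =
      Real.sin (Φ (t + u) - Φ t) * Real.sin u
    rw [show t + 2 * Real.pi + u = (t + u) + 2 * Real.pi by ring, hp, hp]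
    congr 2
    ring
  have hKh : ∀ t, K t = ∫ u in (0 : ℝ)..Real.pi, (g t u + g t (u + Real.pi)) := by
    intro t
    have h1 : Continuous fun u => g t (u + Real.pi) :=
      (hgt t).comp (continuous_id.add continuous_const)
    rw [intervalIntegral.integral_add ((hgt t).intervalIntegrable _ _)
      (h1.intervalIntegrable _ _),
      intervalIntegral.integral_comp_add_right (fun u => g t u) Real.pi, zero_add,
      show Real.pi + Real.pi = 2 * Real.pi by ring,
      intervalIntegral.integral_add_adjacent_intervals ((hgt t).intervalIntegrable _ _)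
      ((hgt t).intervalIntegrable _ _)]
  have hKs : ∀ t, 0 < K t + K (t + Real.pi) := by
    intro t
    have c1 : ∀ t, Continuous fun u => g t u + g t (u + Real.pi) := fun t =>
      (hgt t).add ((hgt t).comp (continuous_id.add continuous_const))
    rw [hKh t, hKh (t + Real.pi), ← intervalIntegral.integral_add
      ((c1 t).intervalIntegrable _ _) ((c1 (t + Real.pi)).intervalIntegrable _ _)]
    have hii : IntervalIntegrable (fun u => g t u + g t (u + Real.pi) +
        (g (t + Real.pi) u + g (t + Real.pi) (u + Real.pi))) MeasureTheory.volume 0 Real.pi :=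
      ((c1 t).add (c1 (t + Real.pi))).intervalIntegrable _ _
    refine intervalIntegral.intervalIntegral_pos_of_pos_on hii (fun u hu => ?_) hpi
    have hs : 0 < Real.sin u := Real.sin_pos_of_pos_of_lt_pi hu.1 hu.2
    have h1 : Φ t < Φ (t + u) := hm (by linarith [hu.1])
    have h2 : Φ (t + u) < Φ (t + Real.pi) := hm (by linarith [hu.2])
    have h3 : Φ (t + Real.pi) < Φ (t + u + Real.pi) := hm (by linarith [hu.1])
    have h4 : Φ (t + u + Real.pi) < Φ t + 2 * Real.pi := by
      rw [← hp]; exact hm (by linarith [hu.2])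
    have h5 := trig_pos h1 h2 h3 h4
    show 0 < Real.sin (Φ (t + u) - Φ t) * Real.sin u +
        Real.sin (Φ (t + (u + Real.pi)) - Φ t) * Real.sin (u + Real.pi) +
      (Real.sin (Φ (t + Real.pi + u) - Φ (t + Real.pi)) * Real.sin u +
        Real.sin (Φ (t + Real.pi + (u + Real.pi)) - Φ (t + Real.pi)) * Real.sin (u + Real.pi))
    rw [Real.sin_add_pi, show t + (u + Real.pi) = t + u + Real.pi by ring,
      show t + Real.pi + u = t + u + Real.pi by ring,
      show t + Real.pi + (u + Real.pi) = (t + u) + 2 * Real.pi by ring, hp]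
    have h6 := mul_pos hs h5
    linarith
  have hsum : (∫ t in (0 : ℝ)..(2 * Real.pi), K t) + (∫ t in (0 : ℝ)..(2 * Real.pi), K t) =
      ∫ t in (0 : ℝ)..(2 * Real.pi), (K t + K (t + Real.pi)) := by
    have h1 : Continuous fun t => K (t + Real.pi) := hK.comp (continuous_id.add continuous_const)
    rw [intervalIntegral.integral_add (hK.intervalIntegrable _ _) (h1.intervalIntegrable _ _),
      intervalIntegral.integral_comp_add_right (fun u => K u) Real.pi, zero_add,
      show 2 * Real.pi + Real.pi = Real.pi + 2 * Real.pi by ring,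
      hKp.intervalIntegral_add_eq Real.pi 0, zero_add]
  have hpos : 0 < ∫ t in (0 : ℝ)..(2 * Real.pi), (K t + K (t + Real.pi)) := by
    have hcc : Continuous fun t => K (t + Real.pi) := hK.comp (continuous_id.add continuous_const)
    have hii : IntervalIntegrable (fun t => K t + K (t + Real.pi)) MeasureTheory.volume 0
        (2 * Real.pi) := (hK.add hcc).intervalIntegrable _ _
    exact intervalIntegral.intervalIntegral_pos_of_pos_on hii (fun t _ => hKs t) Real.two_pi_pos
  show 0 < ∫ t in (0 : ℝ)..(2 * Real.pi), K t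
  linarith

/-- Module DPO. -/
theorem hDPO (hDLI : StDLI) : StDPO := by
  intro φ hφ
  obtain ⟨Φ, hc, hm, hp, hΦ⟩ := hDLI φ hφ
  have hpi := Real.pi_pos
  constructor
  · rw [norm_PI_zero, norm_PI_zero]
    have hinv : 0 < (2 * Real.pi)⁻¹ := inv_pos.2 Real.two_pi_pos
    apply mul_lt_mul_of_pos_left _ hinv
    apply lt_of_pow_lt_pow_left₀ 2 (norm_nonneg _)
    have e1 : ∀ t : ℝ, φ (Complex.exp (t * Complex.I)) * Complex.exp (t * Complex.I) =
        Complex.exp ((Φ t + t : ℝ) * Complex.I) := by
      intro t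
      rw [hΦ, ← Complex.exp_add]
      congr 1
      push_cast; ring
    have e2 : ∀ t : ℝ, φ (Complex.exp (t * Complex.I)) * conj (Complex.exp (t * Complex.I)) =
        Complex.exp ((Φ t - t : ℝ) * Complex.I) := by
      intro t
      rw [hΦ, ← Complex.exp_conj, ← Complex.exp_add]
      congr 1
      rw [map_mul, Complex.conj_ofReal, Complex.conj_I]
      push_cast; ring
    rw [intervalIntegral.integral_congr (g := fun t : ℝ => Complex.exp ((Φ t + t : ℝ) * Complex.I))
      (fun t _ => e1 t), intervalIntegral.integral_congr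
      (g := fun t : ℝ => Complex.exp ((Φ t - t : ℝ) * Complex.I)) (fun t _ => e2 t)]
    have f1 : Continuous fun t => Φ t + t := hc.add continuous_id
    have f2 : Continuous fun t => Φ t - t := hc.sub continuous_id
    rw [sq_exp f1 (fun t => ⟨2, by rw [hp]; push_cast; ring⟩),
      sq_exp f2 (fun t => ⟨0, by rw [hp]; push_cast; ring⟩), ← sub_pos]
    have c1 : Continuous (Function.uncurry fun t u : ℝ =>
        Real.cos (Φ (t + u) + (t + u) - (Φ t + t))) := by
      apply Real.continuous_cos.comp
      exact (f1.comp (continuous_fst.add continuous_snd)).sub (f1.comp continuous_fst)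
    have c2 : Continuous (Function.uncurry fun t u : ℝ =>
        Real.cos (Φ (t + u) - (t + u) - (Φ t - t))) := by
      apply Real.continuous_cos.comp
      exact (f2.comp (continuous_fst.add continuous_snd)).sub (f2.comp continuous_fst)
    have d1 := cont_param c1 0 (2 * Real.pi)
    have d2 := cont_param c2 0 (2 * Real.pi)
    rw [← intervalIntegral.integral_sub (d2.intervalIntegrable _ _) (d1.intervalIntegrable _ _)]
    have e3 : ∀ t : ℝ, (∫ u in (0 : ℝ)..(2 * Real.pi), Real.cos (Φ (t + u) - (t + u) - (Φ t - t))) -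
        (∫ u in (0 : ℝ)..(2 * Real.pi), Real.cos (Φ (t + u) + (t + u) - (Φ t + t))) =
        2 * ∫ u in (0 : ℝ)..(2 * Real.pi), Real.sin (Φ (t + u) - Φ t) * Real.sin u := by
      intro t
      have g1 : Continuous fun u : ℝ => Real.cos (Φ (t + u) + (t + u) - (Φ t + t)) :=
        by fun_prop
      have g2 : Continuous fun u : ℝ => Real.cos (Φ (t + u) - (t + u) - (Φ t - t)) :=
        by fun_prop
      rw [← intervalIntegral.integral_sub (g2.intervalIntegrable _ _) (g1.intervalIntegrable _ _),
        ← intervalIntegral.integral_const_mul]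
      apply intervalIntegral.integral_congr
      intro u _
      show Real.cos (Φ (t + u) - (t + u) - (Φ t - t)) - Real.cos (Φ (t + u) + (t + u) - (Φ t + t)) =
        2 * (Real.sin (Φ (t + u) - Φ t) * Real.sin u)
      rw [show Φ (t + u) - (t + u) - (Φ t - t) = (Φ (t + u) - Φ t) - u by ring,
        show Φ (t + u) + (t + u) - (Φ t + t) = (Φ (t + u) - Φ t) + u by ring,
        Real.cos_add, Real.cos_sub]
      ring
    rw [intervalIntegral.integral_congr (g := fun t : ℝ => 2 * ∫ u in (0 : ℝ)..(2 * Real.pi),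
      Real.sin (Φ (t + u) - Φ t) * Real.sin u) (fun t _ => e3 t),
      intervalIntegral.integral_const_mul]
    have := K_pos hc hm hp
    linarith
  · rw [norm_PI_zero]
    have hf : Continuous fun t : ℝ => Complex.exp ((2 * Φ t : ℝ) * Complex.I) :=
      Complex.continuous_exp.comp ((Complex.continuous_ofReal.comp
        (continuous_const.mul hc)).mul continuous_const)
    have e1 : ∀ t : ℝ, φ (Complex.exp (t * Complex.I)) ^ 2 =
        Complex.exp ((2 * Φ t : ℝ) * Complex.I) := by
      intro t
      rw [hΦ, ← Complex.exp_nat_mul]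
      congr 1
      push_cast; ring
    rw [intervalIntegral.integral_congr (g := fun t : ℝ => Complex.exp ((2 * Φ t : ℝ) * Complex.I))
      (fun t _ => e1 t)]
    obtain ⟨I, hI⟩ : ∃ I : ℂ, I = ∫ t in (0 : ℝ)..(2 * Real.pi),
      Complex.exp ((2 * Φ t : ℝ) * Complex.I) := ⟨_, rfl⟩
    rw [← hI]
    by_cases hI0 : I = 0
    · rw [hI0, norm_zero, mul_zero]; exact one_pos
    have hn : 0 < ‖I‖ := norm_pos_iff.2 hI0
    obtain ⟨c, hcc⟩ : ∃ c : ℂ, c = conj I / (‖I‖ : ℂ) := ⟨_, rfl⟩
    have hnc : (‖I‖ : ℂ) ≠ 0 := by exact_mod_cast hn.ne'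
    have hcI : c * I = (‖I‖ : ℂ) := by
      rw [hcc, div_mul_eq_mul_div, Complex.conj_mul', pow_two, mul_div_assoc, div_self hnc, mul_one]
    have hcn : ‖c‖ = 1 := by
      rw [hcc, norm_div, Complex.norm_conj, Complex.norm_real, norm_norm, div_self hn.ne']
    have hcf : Continuous fun t : ℝ => c * Complex.exp ((2 * Φ t : ℝ) * Complex.I) :=
      continuous_const.mul hf
    have h1 : ‖I‖ = ∫ t in (0 : ℝ)..(2 * Real.pi),
        (c * Complex.exp ((2 * Φ t : ℝ) * Complex.I)).re := by
      rw [← re_int hcf, intervalIntegral.integral_const_mul, ← hI, hcI, Complex.ofReal_re]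
    have hle : ∀ t : ℝ, (c * Complex.exp ((2 * Φ t : ℝ) * Complex.I)).re ≤ 1 := by
      intro t
      refine (Complex.re_le_norm _).trans ?_
      rw [norm_mul, hcn, Complex.norm_exp_ofReal_mul_I, mul_one]
    have hcr : Continuous fun t : ℝ => (c * Complex.exp ((2 * Φ t : ℝ) * Complex.I)).re :=
      Complex.continuous_re.comp hcf
    have hpt : ∃ t ∈ Icc (0 : ℝ) (2 * Real.pi),
        0 < 1 - (c * Complex.exp ((2 * Φ t : ℝ) * Complex.I)).re := by
      have h2 := intermediate_value_Icc (f := Φ) Real.two_pi_pos.le hc.continuousOn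
      have h3 : Φ 0 + Real.pi / 2 ∈ Icc (Φ 0) (Φ (2 * Real.pi)) := by
        have h4 := hp 0
        rw [zero_add] at h4
        rw [h4]
        constructor <;> linarith
      obtain ⟨t, ht, hΦt⟩ := h2 h3
      by_cases h5 : (c * Complex.exp ((2 * Φ 0 : ℝ) * Complex.I)).re ≤ 0
      · exact ⟨0, ⟨le_rfl, Real.two_pi_pos.le⟩, by linarith⟩
      · refine ⟨t, ht, ?_⟩
        have h6 : Complex.exp ((2 * Φ t : ℝ) * Complex.I) =
            - Complex.exp ((2 * Φ 0 : ℝ) * Complex.I) := by
          rw [hΦt, show ((2 * (Φ 0 + Real.pi / 2) : ℝ) : ℂ) * Complex.I =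
            ((2 * Φ 0 : ℝ) : ℂ) * Complex.I + Real.pi * Complex.I by push_cast; ring,
            Complex.exp_add, Complex.exp_pi_mul_I]
          ring
        rw [h6, mul_neg, Complex.neg_re]
        have := not_le.1 h5
        linarith
    have hone : Continuous fun t : ℝ => 1 - (c * Complex.exp ((2 * Φ t : ℝ) * Complex.I)).re :=
      continuous_const.sub hcr
    have h7 := intervalIntegral.integral_pos Real.two_pi_pos hone.continuousOn
      (fun t _ => sub_nonneg.2 (hle t)) hpt
    rw [intervalIntegral.integral_sub (continuous_const.intervalIntegrable _ _)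
      (hcr.intervalIntegrable _ _), ← h1, intervalIntegral.integral_const, smul_eq_mul,
      mul_one, sub_zero] at h7
    rw [inv_mul_lt_iff₀ Real.two_pi_pos]
    linarith

end Pool.Agent.Helper76.QD
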