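import Pool.Agent.Helper20.QD.St4

/-!
# Project QD, part B, module FSB (subdivision)
-/

open Filter Topology Matrix Set Metric
open scoped ComplexConjugate ComplexOrder

namespace Pool.Agent.Helper76.QD

open Pool.Agent.Helper35.PM Pool.Agent.Helper20.QD

/-- Hermitian, trace one, determinant `d > 0`. -/
private structure TP (P : Mat) (d : ℝ) : Prop where
  herm : Pᴴ = P
  tr : P.trace = 1
  det : P.det = (d : ℂ)
  pos : 0 < d

private theorem tp_of {P : Mat} (hP : P.PosDef) (ht : P.trace = 1) : TP P P.det.re := by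
  have h := Complex.pos_iff.1 hP.det_pos
  refine ⟨hP.1, ht, ?_, h.1⟩
  apply Complex.ext
  · rw [Complex.ofReal_re]
  · rw [Complex.ofReal_im]; exact h.2.symm

private theorem tr_hs (M : Mat) : (M * Mᴴ).trace = (hs M : ℂ) := by
  simp only [Matrix.trace, Matrix.diag, Matrix.mul_apply, Matrix.conjTranspose_apply, hs,
    Complex.ofReal_sum, Complex.ofReal_pow]
  refine Finset.sum_congr rfl fun i _ => Finset.sum_congr rfl fun j _ => ?_
  exact Complex.mul_conj' (M i j)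

private theorem hs_nonneg (M : Mat) : 0 ≤ hs M :=
  Finset.sum_nonneg fun _ _ => Finset.sum_nonneg fun _ _ => sq_nonneg _

private theorem TP.sqr {P : Mat} {d : ℝ} (h : TP P d) : P = (d : ℂ) • (1 : Mat) + P * P := by
  have h1 := h.tr
  have h2 := h.det
  rw [Matrix.trace_fin_two] at h1
  rw [Matrix.det_fin_two] at h2
  ext i j
  fin_cases i <;> fin_cases j <;>
    simp [Matrix.mul_apply, Fin.sum_univ_two]
  · linear_combination h2 - P 0 0 * h1
  · linear_combination (-P 0 1) * h1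
  · linear_combination (-P 1 0) * h1
  · linear_combination h2 - P 1 1 * h1

private theorem TP.adj {P : Mat} {d : ℝ} (h : TP P d) : TP P.adjugate d := by
  refine ⟨?_, ?_, ?_, h.pos⟩
  · rw [Matrix.adjugate_conjTranspose, h.herm]
  · have h1 := h.tr
    rw [Matrix.trace_fin_two] at h1
    rw [Matrix.adjugate_fin_two, Matrix.trace_fin_two]
    simp only [Matrix.of_apply, Matrix.cons_val', Matrix.cons_val_zero, Matrix.cons_val_one]
    linear_combination h1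
  · rw [Matrix.det_adjugate, h.det]
    simp

private theorem TP.add_adj {P : Mat} {d : ℝ} (h : TP P d) : P + P.adjugate = 1 := by
  have h1 := h.tr
  rw [Matrix.trace_fin_two] at h1
  rw [Matrix.adjugate_fin_two]
  ext i j
  fin_cases i <;> fin_cases j <;> simp
  · exact h1
  · linear_combination h1

/-- the trace of `M P Mᴴ` -/
private noncomputable def T (M P : Mat) : ℝ := (M * P * Mᴴ).trace.re

private theorem tr_T {P : Mat} {d : ℝ} (h : TP P d) (M : Mat) :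
    (M * P * Mᴴ).trace = (T M P : ℂ) ∧ T M P = d * hs M + hs (M * P) := by
  have h1 : (M * P * Mᴴ).trace = ((d * hs M + hs (M * P) : ℝ) : ℂ) := by
    have h2 : M * P * Mᴴ = (d : ℂ) • (M * Mᴴ) + (M * P) * (M * P)ᴴ := by
      rw [Matrix.conjTranspose_mul, h.herm]
      nth_rewrite 1 [h.sqr]
      rw [Matrix.mul_add, Matrix.add_mul, Matrix.mul_smul, Matrix.mul_one, Matrix.smul_mul]
      simp only [Matrix.mul_assoc]
    rw [h2, Matrix.trace_add, Matrix.trace_smul, tr_hs, tr_hs, smul_eq_mul]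
    push_cast
    rfl
  have h2 : T M P = d * hs M + hs (M * P) := by
    show (M * P * Mᴴ).trace.re = _
    rw [h1, Complex.ofReal_re]
  exact ⟨by rw [h2]; exact h1, h2⟩

private theorem T_lower {P : Mat} {d : ℝ} (h : TP P d) (M : Mat) : d * hs M ≤ T M P := by
  rw [(tr_T h M).2]
  have := hs_nonneg (M * P)
  linarith

private theorem T_nonneg {P : Mat} {d : ℝ} (h : TP P d) (M : Mat) : 0 ≤ T M P :=
  (mul_nonneg h.pos.le (hs_nonneg M)).trans (T_lower h M)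

private theorem T_upper {P : Mat} {d : ℝ} (h : TP P d) (M : Mat) : T M P ≤ hs M := by
  have h1 : T M P + T M P.adjugate = hs M := by
    have h2 : (M * P * Mᴴ).trace + (M * P.adjugate * Mᴴ).trace = (hs M : ℂ) := by
      rw [← Matrix.trace_add, ← Matrix.add_mul, ← Matrix.mul_add, h.add_adj, Matrix.mul_one, tr_hs]
    have h3 := congrArg Complex.re h2
    rw [Complex.add_re, Complex.ofReal_re] at h3
    exact h3
  have := T_nonneg h.adj M
  linarith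

/-- mixed traces -/
private theorem tr_mix {Q P' : Mat} {d d' : ℝ} (h : TP Q d) (h' : TP P' d') (B : Mat) :
    (Q * (B * P' * Bᴴ)).trace = ((d * T B P' + T (Q * B) P' : ℝ) : ℂ) := by
  have h1 : (Q * Q * (B * P' * Bᴴ)).trace = ((Q * B) * P' * (Q * B)ᴴ).trace := by
    rw [Matrix.conjTranspose_mul, h.herm, Matrix.mul_assoc Q Q, Matrix.trace_mul_comm]
    simp only [Matrix.mul_assoc]
  nth_rewrite 1 [h.sqr]
  rw [Matrix.add_mul, Matrix.trace_add, Matrix.smul_mul, Matrix.trace_smul, Matrix.one_mul,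
    h1, (tr_T h' B).1, (tr_T h' (Q * B)).1, smul_eq_mul]
  push_cast
  rfl

private theorem mix {P P' : Mat} {d d' : ℝ} (h : TP P d) (h' : TP P' d') (B : Mat) :
    ∃ q : ℝ, (P.adjugate * (B * P' * Bᴴ)).trace = (q : ℂ) ∧ d * d' * hs B ≤ q ∧ q ≤ hs B := by
  refine ⟨d * T B P' + T (P.adjugate * B) P', tr_mix h.adj h' B, ?_, ?_⟩
  · have h1 := T_lower h' B
    have h2 := T_nonneg h' (P.adjugate * B)
    have h3 := mul_le_mul_of_nonneg_left h1 h.pos.le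
    linarith
  · have h1 : (P * (B * P' * Bᴴ)).trace + (P.adjugate * (B * P' * Bᴴ)).trace =
        (B * P' * Bᴴ).trace := by
      rw [← Matrix.trace_add, ← Matrix.add_mul, h.add_adj, Matrix.one_mul]
    rw [tr_mix h h' B, tr_mix h.adj h' B, (tr_T h' B).1] at h1
    have h2 : (d * T B P' + T (P * B) P') + (d * T B P' + T (P.adjugate * B) P') = T B P' := by
      exact_mod_cast h1
    have h3 := T_nonneg h' (P * B)
    have h4 := T_nonneg h' B
    have h5 := T_upper h' B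
    have h6 := mul_nonneg h.pos.le h4
    linarith

private theorem det_cong (A : SL) (P : Mat) (l : ℝ) :
    ((l : ℂ) • ((A : Mat) * P * (A : Mat)ᴴ)).det = (l : ℂ) ^ 2 * P.det := by
  rw [Matrix.det_smul, Matrix.det_mul, Matrix.det_mul, Matrix.det_conjTranspose, A.det_coe]
  simp

/-- two points of a segment in normal form -/
private theorem pair {P P' : Mat} {d d' l l' d0 κ : ℝ} (h : TP P d) (h' : TP P' d')
    (hd0 : 0 < d0) (hd : d0 ≤ d) (hd' : d0 ≤ d') (hl : 0 < l) (hl' : 0 < l')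
    (A A' : SL) (h1 : l ^ 2 * d = 1) (h1' : l' ^ 2 * d' = 1)
    (hκ : (((l : ℂ) • ((A : Mat) * P * (A : Mat)ᴴ)).adjugate *
      ((l' : ℂ) • ((A' : Mat) * P' * (A' : Mat)ᴴ))).trace = (κ : ℂ)) :
    d0 * hs ((A⁻¹ * A' : SL) : Mat) ≤ κ ∧ κ ≤ hs ((A⁻¹ * A' : SL) : Mat) / d0 := by
  obtain ⟨q, hq, hq1, hq2⟩ := mix h h' ((A⁻¹ * A' : SL) : Mat)
  have e1 : κ = l * l' * q := by
    have e2 : (((l : ℂ) • ((A : Mat) * P * (A : Mat)ᴴ)).adjugate *
        ((l' : ℂ) • ((A' : Mat) * P' * (A' : Mat)ᴴ))).trace = ((l : ℂ) * l') *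
        (P.adjugate * (((A⁻¹ * A' : SL) : Mat) * P' * ((A⁻¹ * A' : SL) : Mat)ᴴ)).trace := by
      have e3 : ((l : ℂ) • ((A : Mat) * P * (A : Mat)ᴴ)).adjugate =
          (l : ℂ) • ((((A⁻¹ : SL) : Mat)ᴴ * P.adjugate) * ((A⁻¹ : SL) : Mat)) := by
        rw [Matrix.adjugate_smul, Matrix.adjugate_mul_distrib, Matrix.adjugate_mul_distrib,
          Matrix.SpecialLinearGroup.coe_inv, Matrix.adjugate_conjTranspose]
        simp [Matrix.mul_assoc]
      rw [e3, Matrix.SpecialLinearGroup.coe_mul, Matrix.smul_mul, Matrix.mul_smul, smul_smul,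
        Matrix.trace_smul, smul_eq_mul]
      congr 1
      rw [Matrix.conjTranspose_mul, Matrix.mul_assoc, Matrix.mul_assoc, Matrix.trace_mul_comm]
      simp only [Matrix.mul_assoc]
    rw [hκ, hq] at e2
    exact_mod_cast e2
  have hdd : (l * l') ^ 2 * (d * d') = 1 := by
    rw [mul_pow]
    calc l ^ 2 * l' ^ 2 * (d * d') = (l ^ 2 * d) * (l' ^ 2 * d') := by ring
      _ = 1 := by rw [h1, h1']; ring
  have hll : 0 < l * l' := mul_pos hl hl'
  have hdd0 : d0 ^ 2 ≤ d * d' := by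
    rw [pow_two]; exact mul_le_mul hd hd' hd0.le (hd0.le.trans hd)
  have hB := hs_nonneg ((A⁻¹ * A' : SL) : Mat)
  have hk1 : d0 ≤ l * l' * (d * d') := by
    by_contra hc
    push Not at hc
    have e3 : 0 < l * l' * (d * d') := mul_pos hll (mul_pos h.pos h'.pos)
    have e4 : (l * l' * (d * d')) ^ 2 < d0 ^ 2 := by nlinarith
    have e5 : (l * l' * (d * d')) ^ 2 = d * d' := by
      calc (l * l' * (d * d')) ^ 2 = ((l * l') ^ 2 * (d * d')) * (d * d') := by ring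
        _ = d * d' := by rw [hdd, one_mul]
    linarith
  have hk2 : l * l' ≤ 1 / d0 := by
    rw [le_div_iff₀ hd0]
    by_contra hc
    push Not at hc
    have e4 : 1 < (l * l' * d0) ^ 2 := by nlinarith
    have e5 : (l * l' * d0) ^ 2 ≤ 1 := by
      calc (l * l' * d0) ^ 2 = (l * l') ^ 2 * d0 ^ 2 := by ring
        _ ≤ (l * l') ^ 2 * (d * d') := by gcongr
        _ = 1 := hdd
    linarith
  constructor
  · rw [e1]
    calc d0 * hs ((A⁻¹ * A' : SL) : Mat) ≤ (l * l' * (d * d')) * hs ((A⁻¹ * A' : SL) : Mat) := by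
          gcongr
      _ = l * l' * (d * d' * hs ((A⁻¹ * A' : SL) : Mat)) := by ring
      _ ≤ l * l' * q := by gcongr
  · rw [e1]
    calc l * l' * q ≤ l * l' * hs ((A⁻¹ * A' : SL) : Mat) := by gcongr
      _ ≤ 1 / d0 * hs ((A⁻¹ * A' : SL) : Mat) := by gcongr
      _ = hs ((A⁻¹ * A' : SL) : Mat) / d0 := by ring

private theorem fr_tri (hLFR : StLFR) (P Q R S : Mat) :
    fr P S ≤ 3 * (fr P Q + fr Q R + fr R S) := by
  obtain ⟨h0, ht, -, -⟩ := hLFR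
  have h1 := (ht P Q S).trans (add_le_add le_rfl (ht Q R S))
  have hq := Real.sq_sqrt (h0 P S).1
  have hq1 := Real.sq_sqrt (h0 P Q).1
  have hq2 := Real.sq_sqrt (h0 Q R).1
  have hq3 := Real.sq_sqrt (h0 R S).1
  have n0 := Real.sqrt_nonneg (fr P S)
  have n1 := Real.sqrt_nonneg (fr P Q)
  have n2 := Real.sqrt_nonneg (fr Q R)
  have n3 := Real.sqrt_nonneg (fr R S)
  have h2 : Real.sqrt (fr P S) ^ 2 ≤
      (Real.sqrt (fr P Q) + (Real.sqrt (fr Q R) + Real.sqrt (fr R S))) ^ 2 :=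
    pow_le_pow_left₀ n0 h1 2
  nlinarith [sq_nonneg (Real.sqrt (fr P Q) - Real.sqrt (fr Q R)),
    sq_nonneg (Real.sqrt (fr Q R) - Real.sqrt (fr R S)),
    sq_nonneg (Real.sqrt (fr P Q) - Real.sqrt (fr R S))]

private theorem posDef_cong {P : Mat} (hP : P.PosDef) (A : SL) {l : ℝ} (hl : 0 < l) :
    ((l : ℂ) • ((A : Mat) * P * (A : Mat)ᴴ)).PosDef := by
  have hA : IsUnit (A : Mat) := by
    rw [Matrix.isUnit_iff_isUnit_det, A.det_coe]
    exact isUnit_one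
  exact (hP.mul_mul_conjTranspose_same (Matrix.vecMul_injective_of_isUnit hA)).smul
    (by exact_mod_cast hl : (0 : ℂ) < (l : ℂ))

private theorem tr_pos {M : Mat} (hM : M.PosDef) : ∃ r : ℝ, 0 < r ∧ M.trace = (r : ℂ) := by
  have h := Complex.pos_iff.1 hM.trace_pos
  refine ⟨M.trace.re, h.1, ?_⟩
  apply Complex.ext
  · rw [Complex.ofReal_re]
  · rw [Complex.ofReal_im]; exact h.2.symm

private theorem density_smul {M : Mat} {l : ℝ} (hl : 0 < l) :
    density ((l : ℂ) • M) = density M := by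
  have hlc : (l : ℂ) ≠ 0 := by exact_mod_cast hl.ne'
  unfold density
  rw [Matrix.trace_smul, smul_smul, smul_eq_mul, mul_inv, mul_comm (l : ℂ)⁻¹, mul_assoc,
    inv_mul_cancel₀ hlc, mul_one]

private theorem eq_smul_density {M : Mat} (hM : M.PosDef) :
    ∃ r : ℝ, 0 < r ∧ M.trace = (r : ℂ) ∧ density M = (r : ℂ)⁻¹ • M ∧ M = (r : ℂ) • density M := by
  obtain ⟨r, hr, h⟩ := tr_pos hM
  have hrc : (r : ℂ) ≠ 0 := by exact_mod_cast hr.ne'
  refine ⟨r, hr, h, by unfold density; rw [h], ?_⟩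
  unfold density
  rw [h, smul_smul, mul_inv_cancel₀ hrc, one_smul]

private theorem dens_conv {C0 : Set Mat} (hconv : Convex ℝ C0) {R R' S : Mat} (hR : R.PosDef)
    (hR' : R'.PosDef) (hS : S.PosDef) (h1 : density R ∈ C0) (h2 : density R' ∈ C0) {x y : ℝ}
    (hx : 0 ≤ x) (hy : 0 ≤ y) (h : S = (x : ℂ) • R + (y : ℂ) • R') : density S ∈ C0 := by
  obtain ⟨r1, hr1, htr1, hd1, he1⟩ := eq_smul_density hR
  obtain ⟨r2, hr2, htr2, hd2, he2⟩ := eq_smul_density hR'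
  obtain ⟨r, hr, htr, hd, he⟩ := eq_smul_density hS
  have hsum : r = x * r1 + y * r2 := by
    have h3 := htr
    rw [h, Matrix.trace_add, Matrix.trace_smul, Matrix.trace_smul, htr1, htr2, smul_eq_mul,
      smul_eq_mul] at h3
    exact_mod_cast h3.symm
  have hrc : (r : ℂ) ≠ 0 := by exact_mod_cast hr.ne'
  have h4 : density S = (x * r1 / r) • density R + (y * r2 / r) • density R' := by
    have h5 : density S = (r : ℂ)⁻¹ • ((x : ℂ) • ((r1 : ℂ) • density R) +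
        (y : ℂ) • ((r2 : ℂ) • density R')) := by
      rw [← he1, ← he2, ← h, hd]
    rw [h5]
    generalize density R = D
    generalize density R' = D'
    ext i j
    simp only [Matrix.smul_apply, Matrix.add_apply, smul_eq_mul, Complex.real_smul]
    push_cast
    field_simp
  rw [h4]
  apply hconv h1 h2 (by positivity) (by positivity)
  rw [← add_div, ← hsum, div_self hr.ne']

/-- the exponential estimate for the indices -/
private theorem idx {τ t0 s : ℝ} (hτ : 0 ≤ τ) (hs : 0 < s) (hs1 : s ≤ 1) :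
    ∃ i0 : ℝ, ∀ i : ℕ, i ≤ ⌊τ⌋₊ + 1 → s / 4 * Real.exp (s / 4 * |(i : ℝ) - i0|) ≤
      s / 2 * Real.exp |τ * i / ((⌊τ⌋₊ + 1 : ℕ) : ℝ) - t0| := by
  by_cases h : 1 ≤ τ
  · have hN : (0 : ℝ) < ((⌊τ⌋₊ + 1 : ℕ) : ℝ) := by exact_mod_cast Nat.succ_pos _
    have hN2 : ((⌊τ⌋₊ + 1 : ℕ) : ℝ) ≤ 2 * τ := by
      push_cast
      have := Nat.floor_le hτ
      linarith
    have hτ0 : 0 < τ := by linarith
    refine ⟨t0 * ((⌊τ⌋₊ + 1 : ℕ) : ℝ) / τ, fun i _ => ?_⟩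
    have e1 : τ * i / ((⌊τ⌋₊ + 1 : ℕ) : ℝ) - t0 =
        (τ / ((⌊τ⌋₊ + 1 : ℕ) : ℝ)) * ((i : ℝ) - t0 * ((⌊τ⌋₊ + 1 : ℕ) : ℝ) / τ) := by
      field_simp
    have e2 : s / 4 * |(i : ℝ) - t0 * ((⌊τ⌋₊ + 1 : ℕ) : ℝ) / τ| ≤
        |τ * i / ((⌊τ⌋₊ + 1 : ℕ) : ℝ) - t0| := by
      rw [e1, abs_mul, abs_of_pos (div_pos hτ0 hN)]
      apply mul_le_mul_of_nonneg_right _ (abs_nonneg _)
      rw [le_div_iff₀ hN]
      nlinarith
    have e3 := Real.exp_le_exp.2 e2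
    have e4 := Real.exp_pos |τ * i / ((⌊τ⌋₊ + 1 : ℕ) : ℝ) - t0|
    nlinarith
  · have hfl : ⌊τ⌋₊ = 0 := Nat.floor_eq_zero.2 (not_le.1 h)
    refine ⟨0, fun i hi => ?_⟩
    rw [hfl, zero_add] at hi
    have hi' : |(i : ℝ) - 0| ≤ 1 := by
      rw [sub_zero, abs_of_nonneg (Nat.cast_nonneg i)]
      exact_mod_cast hi
    have e1 : Real.exp (s / 4 * |(i : ℝ) - 0|) ≤ 2 := by
      have e2 : s / 4 * |(i : ℝ) - 0| ≤ Real.log 2 := by
        have := Real.log_two_gt_d9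
        have h0 := abs_nonneg ((i : ℝ) - 0)
        nlinarith
      calc Real.exp (s / 4 * |(i : ℝ) - 0|) ≤ Real.exp (Real.log 2) := Real.exp_le_exp.2 e2
        _ = 2 := Real.exp_log two_pos
    have e3 := Real.one_le_exp (abs_nonneg (τ * i / ((⌊τ⌋₊ + 1 : ℕ) : ℝ) - t0))
    nlinarith

/-- Module FSB. -/
theorem hFSB (hLFR : StLFR) (hLQC : StLQC) (hLMX : StLMX) (hFSG : StFSG) : StFSB := by
  intro Γ _ ρ hρ
  have _ := hLQC
  obtain ⟨C0, K, ⟨P0, hP0⟩, hconv, hpos, hinv, hKc, hKpos, hcov⟩ := hρ.cocompact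
  have hK1 : ∀ P ∈ insert P0 K, P.PosDef ∧ P.trace = 1 := by
    rintro P (rfl | hP)
    · exact hpos _ hP0
    · exact hKpos P hP
  obtain ⟨d0, hd0, hd01, hd0K⟩ : ∃ d0 : ℝ, 0 < d0 ∧ d0 ≤ 1 ∧ ∀ P ∈ insert P0 K, d0 ≤ P.det.re := by
    have hc : Continuous fun P : Mat => P.det.re :=
      Complex.continuous_re.comp (Continuous.matrix_det continuous_id)
    obtain ⟨Q, hQ, hQm⟩ := (hKc.insert P0).exists_isMinOn ⟨P0, mem_insert _ _⟩ hc.continuousOn
    refine ⟨min Q.det.re 1, lt_min ?_ one_pos, min_le_right _ _, fun P hP => ?_⟩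
    · exact (tp_of (hK1 Q hQ).1 (hK1 Q hQ).2).pos
    · exact (min_le_left _ _).trans (hQm hP)
  have htp : ∀ P ∈ insert P0 K, TP P P.det.re := fun P hP => tp_of (hK1 P hP).1 (hK1 P hP).2
  have hs0 : 0 < Real.sqrt d0 := Real.sqrt_pos.2 hd0
  have hs1 : Real.sqrt d0 ≤ 1 := Real.sqrt_le_one.2 hd01
  have hs2 : Real.sqrt d0 ^ 2 = d0 := Real.sq_sqrt hd0.le
  have hlog : 0 ≤ Real.log (1 / d0) := Real.log_nonneg (by rw [le_div_iff₀ hd0]; linarith)
  -- the constant multiple of determinant one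
  have hmP0 : P0 ∈ insert P0 K := mem_insert _ _
  have tp0 := htp P0 hmP0
  obtain ⟨l0, hl0, hl0d⟩ : ∃ l0 : ℝ, 0 < l0 ∧ l0 ^ 2 * P0.det.re = 1 := by
    refine ⟨(Real.sqrt P0.det.re)⁻¹, inv_pos.2 (Real.sqrt_pos.2 tp0.pos), ?_⟩
    rw [inv_pow, Real.sq_sqrt tp0.pos.le, inv_mul_cancel₀ tp0.pos.ne']
  have hRdet : ∀ A : SL, ((l0 : ℂ) • ((A : Mat) * P0 * (A : Mat)ᴴ)).det = 1 := by
    intro A
    rw [det_cong, tp0.det]
    exact_mod_cast hl0d
  have hRtr : ∀ A : SL, ∃ r : ℝ, 0 < r ∧ ((l0 : ℂ) • ((A : Mat) * P0 * (A : Mat)ᴴ)).trace = (r : ℂ) ∧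
      d0 * hs (A : Mat) ^ 2 ≤ r ^ 2 := by
    intro A
    have h2 := hLMX.1 A
    have hT := T_lower tp0 (A : Mat)
    have hTp : 0 < T (A : Mat) P0 := by
      have := mul_pos tp0.pos (by linarith : 0 < hs (A : Mat))
      linarith
    refine ⟨l0 * T (A : Mat) P0, mul_pos hl0 hTp, ?_, ?_⟩
    · rw [Matrix.trace_smul, (tr_T tp0 _).1, smul_eq_mul]
      push_cast
      rfl
    · calc d0 * hs (A : Mat) ^ 2 ≤ P0.det.re * hs (A : Mat) ^ 2 := by
            gcongr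
            exact hd0K P0 hmP0
        _ = (l0 ^ 2 * P0.det.re) * (P0.det.re * hs (A : Mat) ^ 2) := by rw [hl0d, one_mul]
        _ = (l0 * (P0.det.re * hs (A : Mat))) ^ 2 := by ring
        _ ≤ (l0 * T (A : Mat) P0) ^ 2 := by
          have h5 : 0 ≤ P0.det.re * hs (A : Mat) := mul_nonneg tp0.pos.le (hs_nonneg _)
          gcongr
  refine ⟨{s : Γ | hs (ρ s : Mat) ≤ 2 * Real.cosh 1 / d0}, Real.sqrt d0 / 4,
    7 / d0 + 4 + Real.log (1 / d0), hρ.discrete _, by positivity, by positivity, ?_⟩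
  intro γ γ'
  obtain ⟨τ, S, m, t0, hτ, hS0, hSτ, hm, hSpos, hSconv, hStr, hSm, hmm⟩ :=
    hFSG _ _ (posDef_cong (hK1 P0 hmP0).1 (ρ γ) hl0) (posDef_cong (hK1 P0 hmP0).1 (ρ γ') hl0)
      (hRdet _) (hRdet _)
  -- the points of the segment in normal form
  let Q : ℝ → Γ → Prop := fun t g => ∃ P ∈ insert P0 K, ∃ l : ℝ, 0 < l ∧ l ^ 2 * P.det.re = 1 ∧
    S t = (l : ℂ) • ((ρ g : Mat) * P * (ρ g : Mat)ᴴ)
  have hQ0 : Q 0 γ := ⟨P0, hmP0, l0, hl0, hl0d, hS0⟩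
  have hQτ : Q τ γ' := ⟨P0, hmP0, l0, hl0, hl0d, hSτ⟩
  have hQt : ∀ t ∈ Icc 0 τ, ∃ g, Q t g := by
    intro t ht
    obtain ⟨x, y, hx, hy, hxy⟩ := hSconv t ht
    have hC1 : ∀ g : Γ, density ((l0 : ℂ) • ((ρ g : Mat) * P0 * (ρ g : Mat)ᴴ)) ∈ C0 := by
      intro g
      rw [density_smul hl0]
      exact hinv g P0 hP0
    have hC : density (S t) ∈ C0 :=
      dens_conv hconv (posDef_cong (hK1 P0 hmP0).1 (ρ γ) hl0)
        (posDef_cong (hK1 P0 hmP0).1 (ρ γ') hl0) (hSpos t).1 (hC1 γ) (hC1 γ') hx hy hxy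
    obtain ⟨h, hh⟩ := hcov _ hC
    obtain ⟨r, hr, htr, hd, he⟩ := eq_smul_density (hSpos t).1
    have hdp : (density (S t)).PosDef := (hpos _ hC).1
    have hYp : ((ρ h : Mat) * density (S t) * (ρ h : Mat)ᴴ).PosDef := by
      have := posDef_cong hdp (ρ h) one_pos
      rwa [Complex.ofReal_one, one_smul] at this
    obtain ⟨r', hr', htr', hd', he'⟩ := eq_smul_density hYp
    have hP : density ((ρ h : Mat) * density (S t) * (ρ h : Mat)ᴴ) ∈ insert P0 K :=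
      mem_insert_of_mem _ hh
    have hform : S t = ((r * r' : ℝ) : ℂ) • ((ρ h⁻¹ : Mat) *
        density ((ρ h : Mat) * density (S t) * (ρ h : Mat)ᴴ) * (ρ h⁻¹ : Mat)ᴴ) := by
      have hinv1 : (ρ h⁻¹ : Mat) * (ρ h : Mat) = 1 := by
        rw [← Matrix.SpecialLinearGroup.coe_mul, ← map_mul, inv_mul_cancel, map_one,
          Matrix.SpecialLinearGroup.coe_one]
      have hinv2 : (ρ h : Mat)ᴴ * (ρ h⁻¹ : Mat)ᴴ = 1 := by
        rw [← Matrix.conjTranspose_mul, hinv1, Matrix.conjTranspose_one]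
      have h4 : (r' : ℂ) • ((ρ h⁻¹ : Mat) *
          density ((ρ h : Mat) * density (S t) * (ρ h : Mat)ᴴ) * (ρ h⁻¹ : Mat)ᴴ) =
          density (S t) := by
        rw [← Matrix.smul_mul, ← Matrix.mul_smul, ← he']
        calc (ρ h⁻¹ : Mat) * ((ρ h : Mat) * density (S t) * (ρ h : Mat)ᴴ) * (ρ h⁻¹ : Mat)ᴴ =
            ((ρ h⁻¹ : Mat) * (ρ h : Mat)) * density (S t) * ((ρ h : Mat)ᴴ * (ρ h⁻¹ : Mat)ᴴ) := by
              simp only [Matrix.mul_assoc]
          _ = density (S t) := by rw [hinv1, hinv2, Matrix.one_mul, Matrix.mul_one]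
      rw [Complex.ofReal_mul, mul_smul, h4]
      exact he
    refine ⟨h⁻¹, _, hP, r * r', mul_pos hr hr', ?_, hform⟩
    have h5 := (hSpos t).2
    rw [hform, det_cong, (htp _ hP).det] at h5
    exact_mod_cast h5
  -- the chain
  have hNpos : (0 : ℝ) < ((⌊τ⌋₊ + 1 : ℕ) : ℝ) := by exact_mod_cast Nat.succ_pos _
  have hti : ∀ i : ℕ, i ≤ ⌊τ⌋₊ + 1 → τ * i / ((⌊τ⌋₊ + 1 : ℕ) : ℝ) ∈ Icc 0 τ := by
    intro i hi
    refine ⟨by positivity, ?_⟩
    rw [div_le_iff₀ hNpos]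
    have h1 : (i : ℝ) ≤ ((⌊τ⌋₊ + 1 : ℕ) : ℝ) := by exact_mod_cast hi
    exact mul_le_mul_of_nonneg_left h1 hτ
  have hg : ∀ i : ℕ, ∃ g : Γ, (i = 0 → g = γ) ∧ (i = ⌊τ⌋₊ + 1 → g = γ') ∧
      (i ≤ ⌊τ⌋₊ + 1 → Q (τ * i / ((⌊τ⌋₊ + 1 : ℕ) : ℝ)) g) := by
    intro i
    by_cases h0 : i = 0
    · refine ⟨γ, fun _ => rfl, fun h => ?_, fun _ => ?_⟩
      · omega
      · rw [h0, Nat.cast_zero, mul_zero, zero_div]
        exact hQ0
    by_cases hN : i = ⌊τ⌋₊ + 1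
    · refine ⟨γ', fun h => absurd h h0, fun _ => rfl, fun _ => ?_⟩
      rw [hN, mul_div_assoc, div_self hNpos.ne', mul_one]
      exact hQτ
    by_cases hi : i ≤ ⌊τ⌋₊ + 1
    · obtain ⟨g, hg⟩ := hQt _ (hti i hi)
      exact ⟨g, fun h => absurd h h0, fun h => absurd h hN, fun _ => hg⟩
    · exact ⟨1, fun h => absurd h h0, fun h => absurd h hN, fun h => absurd h hi⟩
  choose g hg0 hgN hgQ using hg
  obtain ⟨i0, hi0⟩ := idx (t0 := t0) hτ hs0 hs1
  refine ⟨⌊τ⌋₊ + 1, g, i0, m, hg0 0 rfl, hgN _ rfl, hm, ?_, ?_, ?_, ?_⟩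
  · -- consecutive elements
    intro i hi
    obtain ⟨P, hP, l, hl, hld, hS⟩ := hgQ i hi.le
    obtain ⟨P', hP', l', hl', hld', hS'⟩ := hgQ (i + 1) hi
    have hκ := hStr (τ * i / ((⌊τ⌋₊ + 1 : ℕ) : ℝ)) (τ * ((i + 1 : ℕ) : ℝ) / ((⌊τ⌋₊ + 1 : ℕ) : ℝ))
    rw [hS, hS'] at hκ
    have h1 := (pair (htp P hP) (htp P' hP') hd0 (hd0K P hP) (hd0K P' hP') hl hl' (ρ (g i))
      (ρ (g (i + 1))) hld hld' hκ).1
    show hs (ρ ((g i)⁻¹ * g (i + 1)) : Mat) ≤ 2 * Real.cosh 1 / d0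
    rw [map_mul, map_inv, le_div_iff₀ hd0, mul_comm]
    refine h1.trans ?_
    have h2 : Real.cosh (τ * i / ((⌊τ⌋₊ + 1 : ℕ) : ℝ) -
        τ * ((i + 1 : ℕ) : ℝ) / ((⌊τ⌋₊ + 1 : ℕ) : ℝ)) ≤ Real.cosh 1 := by
      rw [Real.cosh_le_cosh]
      have h3 : τ * i / ((⌊τ⌋₊ + 1 : ℕ) : ℝ) - τ * ((i + 1 : ℕ) : ℝ) / ((⌊τ⌋₊ + 1 : ℕ) : ℝ) =
          - (τ / ((⌊τ⌋₊ + 1 : ℕ) : ℝ)) := by
        push_cast
        ring
      rw [h3, abs_neg, abs_of_nonneg (div_nonneg hτ hNpos.le), abs_one, div_le_one hNpos]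
      push_cast
      exact (Nat.lt_floor_add_one τ).le
    linarith
  · -- the estimate for `m`
    have hu : ∀ h : Γ, (density ((l0 : ℂ) • ((ρ h : Mat) * P0 * (ρ h : Mat)ᴴ))).det.re ≤
        1 / d0 * (1 / hs (ρ h : Mat) ^ 2) ∧
        fr (orb ρ h) (density ((l0 : ℂ) • ((ρ h : Mat) * P0 * (ρ h : Mat)ᴴ))) ≤
        2 / d0 * (1 / hs (ρ h : Mat) ^ 2) := by
      intro h
      have hh2 := hLMX.1 (ρ h)
      have hh : 0 < hs (ρ h : Mat) := by linarith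
      constructor
      · obtain ⟨r, hr, htr, hrr⟩ := hRtr (ρ h)
        have e1 : (density ((l0 : ℂ) • ((ρ h : Mat) * P0 * (ρ h : Mat)ᴴ))).det =
            ((1 / r ^ 2 : ℝ) : ℂ) := by
          unfold density
          rw [htr, Matrix.det_smul, hRdet, Fintype.card_fin]
          push_cast
          rw [mul_one, one_div, inv_pow]
        rw [e1, Complex.ofReal_re]
        calc 1 / r ^ 2 ≤ 1 / (d0 * hs (ρ h : Mat) ^ 2) := by
              apply one_div_le_one_div_of_le (by positivity) hrr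
          _ = 1 / d0 * (1 / hs (ρ h : Mat) ^ 2) := by
              field_simp
      · rw [density_smul hl0]
        obtain ⟨h5, h6⟩ := hLMX.2.2.2.2.2 (ρ h) P0 (hK1 P0 hmP0).1 (hK1 P0 hmP0).2
        refine h6.trans ?_
        have h7 : d0 * hs (ρ h : Mat) ≤ ((ρ h : Mat) * P0 * (ρ h : Mat)ᴴ).trace.re := by
          have h8 := T_lower tp0 (ρ h : Mat)
          have h9 := mul_le_mul_of_nonneg_right (hd0K P0 hmP0) hh.le
          exact h9.trans h8
        calc 2 / (hs (ρ h : Mat) * ((ρ h : Mat) * P0 * (ρ h : Mat)ᴴ).trace.re) ≤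
            2 / (hs (ρ h : Mat) * (d0 * hs (ρ h : Mat))) := by gcongr
          _ = 2 / d0 * (1 / hs (ρ h : Mat) ^ 2) := by
              field_simp
    have h1 := fr_tri hLFR (density ((l0 : ℂ) • ((ρ γ : Mat) * P0 * (ρ γ : Mat)ᴴ)))
      (orb ρ γ) (orb ρ γ') (density ((l0 : ℂ) • ((ρ γ' : Mat) * P0 * (ρ γ' : Mat)ᴴ)))
    rw [(hLFR.1 (density ((l0 : ℂ) • ((ρ γ : Mat) * P0 * (ρ γ : Mat)ᴴ))) (orb ρ γ)).2.1] at h1
    have h2 := hu γ
    have h3 := hu γ'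
    have hf := (hLFR.1 (orb ρ γ) (orb ρ γ')).1
    have hu1 : 0 ≤ 1 / hs (ρ γ : Mat) ^ 2 := by positivity
    have hu2 : 0 ≤ 1 / hs (ρ γ' : Mat) ^ 2 := by positivity
    have hd1 : 0 ≤ 1 / d0 := by positivity
    calc 1 / m ^ 2 ≤ 1 / d0 * (1 / hs (ρ γ : Mat) ^ 2) + 1 / d0 * (1 / hs (ρ γ' : Mat) ^ 2) +
          3 * (2 / d0 * (1 / hs (ρ γ : Mat) ^ 2) + fr (orb ρ γ) (orb ρ γ') +
            2 / d0 * (1 / hs (ρ γ' : Mat) ^ 2)) := by linarith [h2.1, h2.2, h3.1, h3.2]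
      _ = 7 / d0 * (1 / hs (ρ γ : Mat) ^ 2) + 7 / d0 * (1 / hs (ρ γ' : Mat) ^ 2) +
          3 * fr (orb ρ γ) (orb ρ γ') := by ring
      _ ≤ (7 / d0 + 4 + Real.log (1 / d0)) * (1 / hs (ρ γ : Mat) ^ 2) +
          (7 / d0 + 4 + Real.log (1 / d0)) * (1 / hs (ρ γ' : Mat) ^ 2) +
          (7 / d0 + 4 + Real.log (1 / d0)) * fr (orb ρ γ) (orb ρ γ') := by
        have h70 : 0 ≤ 7 / d0 := by positivity
        gcongr
        · linarith
        · linarith
        · linarith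
      _ = _ := by ring
  · -- the exponential lower bound
    intro i hi
    obtain ⟨P, hP, l, hl, hld, hS⟩ := hgQ i hi
    have h1 := hSm _ (hti i hi)
    have h2 : (S (τ * i / ((⌊τ⌋₊ + 1 : ℕ) : ℝ))).trace.re = l * T (ρ (g i) : Mat) P := by
      rw [hS, Matrix.trace_smul, (tr_T (htp P hP) _).1, smul_eq_mul, ← Complex.ofReal_mul,
        Complex.ofReal_re]
    have h3 := T_upper (htp P hP) (ρ (g i) : Mat)
    have h4 : Real.sqrt d0 * l ≤ 1 := by
      by_contra hc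
      push Not at hc
      have h5 : 1 < (Real.sqrt d0 * l) ^ 2 := by nlinarith
      have h6 : (Real.sqrt d0 * l) ^ 2 ≤ 1 := by
        calc (Real.sqrt d0 * l) ^ 2 = l ^ 2 * d0 := by rw [mul_pow, hs2]; ring
          _ ≤ l ^ 2 * P.det.re := by
            gcongr
            exact hd0K P hP
          _ = 1 := hld
      linarith
    have hh := hs_nonneg (ρ (g i) : Mat)
    have h5 := hi0 i hi
    calc Real.sqrt d0 / 4 * m * Real.exp (Real.sqrt d0 / 4 * |(i : ℝ) - i0|) =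
        m * (Real.sqrt d0 / 4 * Real.exp (Real.sqrt d0 / 4 * |(i : ℝ) - i0|)) := by ring
      _ ≤ m * (Real.sqrt d0 / 2 * Real.exp |τ * i / ((⌊τ⌋₊ + 1 : ℕ) : ℝ) - t0|) := by gcongr
      _ = Real.sqrt d0 * (m / 2 * Real.exp |τ * i / ((⌊τ⌋₊ + 1 : ℕ) : ℝ) - t0|) := by ring
      _ ≤ Real.sqrt d0 * (l * T (ρ (g i) : Mat) P) := by
        rw [h2] at h1
        gcongr
      _ ≤ Real.sqrt d0 * (l * hs (ρ (g i) : Mat)) := by gcongr
      _ = (Real.sqrt d0 * l) * hs (ρ (g i) : Mat) := by ring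
      _ ≤ 1 * hs (ρ (g i) : Mat) := by gcongr
      _ = hs (ρ (g i) : Mat) := one_mul _
  · -- the number of steps
    have hκ := hStr 0 τ
    rw [hS0, hSτ] at hκ
    have h1 := (pair tp0 tp0 hd0 (hd0K P0 hmP0) (hd0K P0 hmP0) hl0 hl0 (ρ γ)
      (ρ γ') hl0d hl0d hκ).2
    have h2 : ρ (γ⁻¹ * γ') = (ρ γ)⁻¹ * ρ γ' := by rw [map_mul, map_inv]
    have hh2 := hLMX.1 ((ρ γ)⁻¹ * ρ γ')
    rw [h2]
    have h3 : Real.exp τ ≤ 2 * Real.cosh (0 - τ) := by
      rw [zero_sub, Real.cosh_neg, Real.cosh_eq]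
      have := Real.exp_pos (-τ)
      linarith
    have h4 : τ ≤ Real.log (hs (((ρ γ)⁻¹ * ρ γ' : SL) : Mat)) + Real.log (1 / d0) := by
      rw [← Real.log_mul (by linarith) (by positivity)]
      rw [Real.le_log_iff_exp_le (by positivity)]
      refine (h3.trans h1).trans (le_of_eq ?_)
      ring
    have h5 : 0 ≤ Real.log (hs (((ρ γ)⁻¹ * ρ γ' : SL) : Mat)) := Real.log_nonneg (by linarith)
    have h6 := Nat.floor_le hτ
    have h70 : 0 ≤ 7 / d0 := by positivity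
    push_cast
    have h8 : Real.log (hs (((ρ γ)⁻¹ * ρ γ' : SL) : Mat)) ≤
        (7 / d0 + 4 + Real.log (1 / d0)) * Real.log (hs (((ρ γ)⁻¹ * ρ γ' : SL) : Mat)) := by
      nlinarith
    linarith

end Pool.Agent.Helper76.QD
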